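import Pool.Agent.Helper57.ZF.Goals

/-!
Project ZF, packet PK.
-/

set_option autoImplicit false

namespace Pool.Agent.Helper20.ZF

open Pool.Agent.Helper57.ZF

theorem PK (hmsep : G_MSEP) : G_PK := by
  classical
  intro M _ hD
  obtain ⟨N0, hN0⟩ := hD 1024
  refine ⟨N0 + 1, Nat.succ_pos _, ?_⟩
  intro L T A s hs hTL hTsep hAL hAsep hpart
  obtain ⟨A', hA'A, hA'sep, hA'cov⟩ := hmsep M A (1024 * s) (by positivity)
  -- the partners
  choose! pr hprL hpr1 hpr2 using hpart
  -- the card of A
  have hcardA : A.card ≤ N0 * A'.card := by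
    choose! g hgA' hgd using hA'cov
    refine Finset.card_le_mul_card_image_of_maps_to hgA' N0 ?_
    intro b _
    refine hN0 s b _ hs ?_ ?_
    · intro x hx
      rw [Finset.mem_filter] at hx
      have := hgd x hx.1
      rw [hx.2] at this
      exact this.le
    · intro x hx y hy hxy
      rw [Finset.mem_filter] at hx hy
      exact hAsep x hx.1 y hy.1 hxy
  set T1 := T.filter (fun τ => ∀ ν ∈ A', 128 * s ≤ dist τ ν) with hT1
  -- the card of T
  have hcardT : T.card ≤ T1.card + A'.card := by
    have h1 : T.card = T1.card + (T.filter (fun τ => ¬ ∀ ν ∈ A', 128 * s ≤ dist τ ν)).card :=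
      (Finset.card_filter_add_card_filter_not (s := T) _).symm
    have h2 : (T.filter (fun τ => ¬ ∀ ν ∈ A', 128 * s ≤ dist τ ν)).card ≤ A'.card := by
      have h3 : ∀ τ ∈ T.filter (fun τ => ¬ ∀ ν ∈ A', 128 * s ≤ dist τ ν),
          ∃ ν ∈ A', dist τ ν < 128 * s := by
        intro τ hτ
        rw [Finset.mem_filter] at hτ
        have := hτ.2
        push Not at this
        exact this
      choose! g hg1 hg2 using h3
      refine Finset.card_le_card_of_injOn g (fun τ hτ => hg1 τ hτ) ?_
      intro x hx y hy hxy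
      by_contra hne
      have hxT : x ∈ T := (Finset.mem_filter.mp hx).1
      have hyT : y ∈ T := (Finset.mem_filter.mp hy).1
      have h4 := hTsep x hxT y hyT hne
      have h5 := hg2 x hx
      have h6 := hg2 y hy
      rw [← hxy, dist_comm] at h6
      have h7 := dist_triangle x (g x) y
      linarith
    omega
  -- distances
  have hTP : ∀ τ ∈ T1, ∀ ν ∈ A', 64 * s ≤ dist τ (pr ν) := by
    intro τ hτ ν hν
    have h1 := (Finset.mem_filter.mp hτ).2 ν hν
    have h2 := hpr2 ν (hA'A hν)
    have h3 := dist_triangle τ (pr ν) ν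
    rw [dist_comm (pr ν) ν] at h3
    linarith
  have hAP' : ∀ μ ∈ A', ∀ ν ∈ A', μ ≠ ν → 960 * s ≤ dist μ (pr ν) := by
    intro μ hμ ν hν hne
    have h1 := hA'sep μ hμ ν hν hne
    have h2 := hpr2 ν (hA'A hν)
    have h3 := dist_triangle μ (pr ν) ν
    rw [dist_comm (pr ν) ν] at h3
    linarith
  have hAP : ∀ μ ∈ A', ∀ ν ∈ A', s / 32 < dist μ (pr ν) := by
    intro μ hμ ν hν
    by_cases hne : μ = ν
    · subst hne
      exact hpr1 μ (hA'A hμ)
    · have := hAP' μ hμ ν hν hne
      linarith
  have hPP : ∀ μ ∈ A', ∀ ν ∈ A', μ ≠ ν → 896 * s ≤ dist (pr μ) (pr ν) := by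
    intro μ hμ ν hν hne
    have h1 := hAP' μ hμ ν hν hne
    have h2 := hpr2 μ (hA'A hμ)
    have h3 := dist_triangle μ (pr μ) (pr ν)
    linarith
  have hinj : Set.InjOn pr (A' : Set M) := by
    intro μ hμ ν hν h
    by_contra hne
    have := hPP μ hμ ν hν hne
    rw [h, dist_self] at this
    linarith
  have hd1 : Disjoint T1 A' := by
    rw [Finset.disjoint_left]
    intro x hx hx'
    have := (Finset.mem_filter.mp hx).2 x hx'
    rw [dist_self] at this
    linarith
  have hd2 : Disjoint (T1 ∪ A') (A'.image pr) := by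
    rw [Finset.disjoint_left]
    intro x hx hx'
    obtain ⟨ν, hν, rfl⟩ := Finset.mem_image.mp hx'
    rcases Finset.mem_union.mp hx with h | h
    · have := hTP _ h ν hν
      rw [dist_self] at this
      linarith
    · have := hAP _ h ν hν
      rw [dist_self] at this
      linarith
  refine ⟨T1 ∪ A' ∪ A'.image pr, ?_, ?_, ?_⟩
  · refine Finset.union_subset (Finset.union_subset ?_ ?_) ?_
    · exact (Finset.filter_subset _ _).trans hTL
    · exact hA'A.trans hAL
    · intro x hx
      obtain ⟨ν, hν, rfl⟩ := Finset.mem_image.mp hx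
      exact hprL ν (hA'A hν)
  · intro x hx y hy hxy
    rw [Finset.mem_union, Finset.mem_union] at hx hy
    rcases hx with (hx | hx) | hx
    · rcases hy with (hy | hy) | hy
      · have := hTsep x (Finset.mem_filter.mp hx).1 y (Finset.mem_filter.mp hy).1 hxy
        linarith
      · have := (Finset.mem_filter.mp hx).2 y hy
        linarith
      · obtain ⟨ν, hν, rfl⟩ := Finset.mem_image.mp hy
        have := hTP x hx ν hν
        linarith
    · rcases hy with (hy | hy) | hy
      · have := (Finset.mem_filter.mp hy).2 x hx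
        rw [dist_comm]
        linarith
      · have := hA'sep x hx y hy hxy
        linarith
      · obtain ⟨ν, hν, rfl⟩ := Finset.mem_image.mp hy
        exact (hAP x hx ν hν).le
    · obtain ⟨μ, hμ, rfl⟩ := Finset.mem_image.mp hx
      rcases hy with (hy | hy) | hy
      · have := hTP y hy μ hμ
        rw [dist_comm]
        linarith
      · rw [dist_comm]
        exact (hAP y hy μ hμ).le
      · obtain ⟨ν, hν, rfl⟩ := Finset.mem_image.mp hy
        have hne : μ ≠ ν := fun h => hxy (by rw [h])
        have := hPP μ hμ ν hν hne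
        linarith
  · rw [Finset.card_union_of_disjoint hd2, Finset.card_union_of_disjoint hd1,
      Finset.card_image_of_injOn hinj]
    nlinarith [hcardA, hcardT, Nat.zero_le N0, Nat.zero_le A'.card,
      Nat.mul_le_mul_left (N0 + 1) hcardT]

end Pool.Agent.Helper20.ZF
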